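import Pool.Agent.R580.AT.Pow

/-!
Fractional parts of graded sets of real numbers; groups with torsion.
-/

set_option autoImplicit false

namespace Pool.Agent.R580.AT

open Pool.Agent.W656.VA

variable {R : Subring ℂ}

/-- some multiple of a number, minus the number itself, is close to the negative of the number -/
theorem neg_mult (w ε : ℝ) (hε : 0 < ε) : ∃ (l : ℕ) (j : ℤ), |(l : ℝ) * w + w - j| < ε := by
  obtain ⟨n, hn⟩ := exists_nat_gt (1 / ε)
  have hn0 : 0 < n := by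
    have : (0 : ℝ) < n := lt_trans (by positivity) hn
    exact_mod_cast this
  obtain ⟨j, k, hk0, hkn, hjk⟩ := Real.exists_int_int_abs_mul_sub_le w hn0
  obtain ⟨l, rfl⟩ : ∃ l : ℕ, k = l + 1 := ⟨(k - 1).toNat, by omega⟩
  refine ⟨l, j, ?_⟩
  have h1 : (1 : ℝ) / (n + 1) < ε := by
    rw [div_lt_iff₀ (by positivity)]
    rw [div_lt_iff₀ hε] at hn
    nlinarith
  have e : (l : ℝ) * w + w - j = ((l + 1 : ℤ) : ℝ) * w - j := by
    push_cast
    ring
  rw [e]
  exact lt_of_le_of_lt hjk h1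

/-- **Fractional parts.** A graded set of real numbers which is closed under sums within a degree
and under products, whose elements can be moved up modulo `1`, and which contains a number which is
not an integer, is dense modulo `1`. -/
theorem dense_graded (E : ℕ → Set ℝ) (h0 : ∀ k, (0 : ℝ) ∈ E k) (h1 : (1 : ℝ) ∈ E 0)
    (ha : ∀ k, ∀ x ∈ E k, ∀ y ∈ E k, x + y ∈ E k)
    (hm : ∀ k l, ∀ x ∈ E k, ∀ y ∈ E l, x * y ∈ E (k + l))
    (hs : ∀ k, ∀ x ∈ E k, ∀ ε : ℝ, 0 < ε → ∃ y ∈ E (k + 1), ∃ j : ℤ, |y - x - j| < ε)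
    {k₀ : ℕ} {v : ℝ} (hv : v ∈ E k₀) (hv' : ¬ ∃ z : ℤ, v = z) (a b : ℝ) (hab0 : 0 ≤ a)
    (hab : a < b) (hb : b ≤ 1) :
    ∃ K, ∀ k, K ≤ k → ∃ x ∈ E k, a < Int.fract x ∧ Int.fract x < b := by
  -- moving up several times
  have hs' : ∀ l k, ∀ x ∈ E k, ∀ ε : ℝ, 0 < ε → ∃ y ∈ E (k + l), ∃ j : ℤ, |y - x - j| < ε := by
    intro l
    induction l with
    | zero => exact fun k x hx ε hε => ⟨x, hx, 0, by simpa using hε⟩
    | succ l ih =>
      intro k x hx ε hε
      obtain ⟨y, hy, j, hj⟩ := ih k x hx (ε / 2) (by linarith)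
      obtain ⟨w, hw, i, hi⟩ := hs _ y hy (ε / 2) (by linarith)
      refine ⟨w, hw, j + i, ?_⟩
      rw [abs_lt] at hj hi ⊢
      push_cast
      constructor <;> linarith
  have hmul : ∀ k, ∀ x ∈ E k, ∀ l : ℕ, (l : ℝ) * x ∈ E k := by
    intro k x hx l
    induction l with
    | zero => simpa using h0 k
    | succ l ih =>
      have := ha _ _ ih _ hx
      have e : (l : ℝ) * x + x = ((l + 1 : ℕ) : ℝ) * x := by push_cast; ring
      rwa [e] at this
  -- the numbers which are approximated in all high degrees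
  let T : AddSubgroup ℝ :=
    { carrier := {x | ∀ ε : ℝ, 0 < ε → ∃ K, ∀ k, K ≤ k → ∃ y ∈ E k, ∃ j : ℤ, |y - x - j| < ε}
      zero_mem' := fun ε hε => ⟨0, fun k _ => ⟨0, h0 k, 0, by simpa using hε⟩⟩
      add_mem' := by
        intro x x' hx hx' ε hε
        obtain ⟨K, hK⟩ := hx (ε / 2) (by linarith)
        obtain ⟨K', hK'⟩ := hx' (ε / 2) (by linarith)
        refine ⟨max K K', fun k hk => ?_⟩
        obtain ⟨y, hy, j, hj⟩ := hK k (le_trans (le_max_left _ _) hk)
        obtain ⟨y', hy', j', hj'⟩ := hK' k (le_trans (le_max_right _ _) hk)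
        refine ⟨y + y', ha _ _ hy _ hy', j + j', ?_⟩
        rw [abs_lt] at hj hj' ⊢
        push_cast
        constructor <;> linarith
      neg_mem' := by
        intro x hx ε hε
        obtain ⟨K, hK⟩ := hx (ε / 2) (by linarith)
        refine ⟨K, fun k hk => ?_⟩
        obtain ⟨y, hy, j, hj⟩ := hK k hk
        obtain ⟨l, i, hi⟩ := neg_mult y (ε / 2) (by linarith)
        refine ⟨l * y, hmul _ _ hy l, i - j, ?_⟩
        rw [abs_lt] at hj hi ⊢
        push_cast
        constructor <;> linarith }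
  have hET : ∀ k, ∀ x ∈ E k, x ∈ T := by
    intro k x hx ε hε
    refine ⟨k, fun k' hk' => ?_⟩
    obtain ⟨l, rfl⟩ := Nat.exists_eq_add_of_le hk'
    exact hs' l k x hx ε hε
  -- the subring
  let M : Submonoid ℝ :=
    { carrier := {x | ∃ k, x ∈ E k}
      one_mem' := ⟨0, h1⟩
      mul_mem' := by
        rintro x y ⟨k, hx⟩ ⟨l, hy⟩
        exact ⟨k + l, hm _ _ _ hx _ hy⟩ }
  let S : Subring ℝ := Subring.closure (M : Set ℝ)
  have hST : ∀ x ∈ S, x ∈ T := by
    intro x hx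
    rw [Subring.mem_closure_iff, Submonoid.closure_eq] at hx
    have hle : AddSubgroup.closure (M : Set ℝ) ≤ T := by
      rw [AddSubgroup.closure_le]
      rintro y ⟨k, hy⟩
      exact hET k y hy
    exact hle hx
  have hvS : v ∈ S := Subring.subset_closure ⟨k₀, hv⟩
  have hdense : Dense (S.toAddSubgroup : Set ℝ) := by
    rcases AddSubgroup.dense_or_cyclic S.toAddSubgroup with h | ⟨c, hc⟩
    · exact h
    · exfalso
      have hmem : ∀ x, x ∈ S ↔ ∃ n : ℤ, n • c = x := by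
        intro x
        have : x ∈ S.toAddSubgroup ↔ x ∈ AddSubgroup.closure {c} := by rw [hc]
        rw [AddSubgroup.mem_closure_singleton] at this
        exact this
      obtain ⟨n, hn⟩ := (hmem 1).1 S.one_mem
      have hcS : c ∈ S := (hmem c).2 ⟨1, by simp⟩
      obtain ⟨m, hm'⟩ := (hmem (c * c)).1 (S.mul_mem hcS hcS)
      rw [zsmul_eq_mul] at hn hm'
      have hc0 : c ≠ 0 := by
        rintro rfl
        simp at hn
      have hcm : c = m := (mul_right_cancel₀ hc0 hm').symm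
      obtain ⟨k, hk⟩ := (hmem v).1 hvS
      apply hv'
      refine ⟨k * m, ?_⟩
      rw [← hk, zsmul_eq_mul, hcm]
      push_cast
      ring
  set δ : ℝ := (b - a) / 3 with hδ
  have hδ0 : 0 < δ := by rw [hδ]; linarith
  obtain ⟨x, hxS, hx1, hx2⟩ := hdense.exists_mem_open (isOpen_Ioo (a := a + δ) (b := b - δ))
    ⟨(a + b) / 2, by constructor <;> (rw [hδ]; linarith)⟩
  obtain ⟨K, hK⟩ := hST x hxS δ hδ0
  refine ⟨K, fun k hk => ?_⟩
  obtain ⟨y, hy, j, hj⟩ := hK k hk
  refine ⟨y, hy, ?_⟩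
  rw [abs_lt] at hj
  have hf : Int.fract y = y - j := by
    have e : y = (y - j) + (j : ℤ) := by ring
    conv_lhs => rw [e]
    rw [Int.fract_add_intCast, Int.fract_eq_self]
    constructor <;> linarith
  rw [hf]
  constructor <;> linarith

/-- **Direct powers of a group with torsion.** -/
theorem dense_scaled {G : Type} [Group G] {d : ℕ} (hG : IsLcm G d) {k₀ : ℕ} {v : ℝ}
    (hv : Val R (Fin k₀ → G) v) (hv' : ¬ ∃ z : ℤ, (d : ℝ) ^ k₀ * v = z)
    (a b : ℝ) (hab0 : 0 ≤ a) (hab : a < b) (hb : b ≤ 1) :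
    ∃ K : ℕ, ∀ k, K ≤ k → ∃ x : ℝ, Val R (Fin k → G) x ∧ a < Int.fract ((d : ℝ) ^ k * x) ∧
      Int.fract ((d : ℝ) ^ k * x) < b := by
  have hd : (0 : ℝ) < d := by exact_mod_cast hG.pos
  obtain ⟨K, hK⟩ := dense_graded
    (fun k => {x | ∃ w, Val R (Fin k → G) w ∧ x = d ^ k * w})
    (fun k => ⟨0, val_zero, by simp⟩) ⟨1, val_one, by simp⟩
    (by
      rintro k _ ⟨w, hw, rfl⟩ _ ⟨w', hw', rfl⟩
      exact ⟨w + w', val_add hw hw', by ring⟩)
    (by
      rintro k l _ ⟨w, hw, rfl⟩ _ ⟨w', hw', rfl⟩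
      exact ⟨w * w', pow_mul hw hw', by rw [pow_add]; ring⟩)
    (by
      rintro k _ ⟨w, hw, rfl⟩ ε hε
      obtain ⟨u, z, hu, huz⟩ := val_frac (R := R) hG 1
      -- a positive multiple of `z₀` which is good
      set z₀ : ℕ := z.natAbs + 1 with hz₀
      obtain ⟨l, j, hl⟩ := neg_mult ((z₀ : ℝ) * (d * (d ^ k * w))) ε hε
      have hzz : 0 ≤ ((l : ℤ) + 1) * z₀ - z := by
        have h1 : z ≤ z.natAbs := Int.le_natAbs
        have h2 : (0 : ℤ) ≤ l := Int.natCast_nonneg _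
        rw [hz₀]
        push_cast
        have h3 : (0 : ℤ) ≤ |z| := abs_nonneg z
        have h4 : z ≤ |z| := le_abs_self z
        nlinarith
      obtain ⟨n, hn⟩ := Int.eq_ofNat_of_zero_le hzz
      have hu2 : Val R G (u + n) := by
        have := val_add hu (val_nsmul (val_one (R := R) (G := G)) n)
        rwa [mul_one] at this
      have hn' : (n : ℝ) = ((l : ℝ) + 1) * z₀ - z := by
        have : ((n : ℤ) : ℝ) = ((((l : ℤ) + 1) * z₀ - z : ℤ) : ℝ) := by rw [hn]
        push_cast at this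
        exact this
      refine ⟨d ^ (k + 1) * (w * (u + n)), ⟨_, pow_mul hw (pow_one' hu2), rfl⟩, j, ?_⟩
      have e : (d : ℝ) ^ (k + 1) * (w * (u + n)) - d ^ k * w - j
          = (l : ℝ) * ((z₀ : ℝ) * (d * (d ^ k * w))) + (z₀ : ℝ) * (d * (d ^ k * w)) - j := by
        rw [huz, hn', pow_succ]
        field_simp
        push_cast
        ring
      rw [e]
      exact hl)
    ⟨v, hv, rfl⟩ hv' a b hab0 hab hb
  refine ⟨K, fun k hk => ?_⟩
  obtain ⟨x, ⟨w, hw, rfl⟩, h⟩ := hK k hk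
  exact ⟨w, hw, h⟩

end Pool.Agent.R580.AT
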