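import Pool.Agent.W656.VA9

/-!
Direct powers: products of kernel dimensions, denominators which are free of `k`-th powers,
fractional parts of the elements of a semiring of real numbers.
-/

set_option autoImplicit false

namespace Pool.Agent.R580.AT

open Pool.Agent.W656.VA

variable {R : Subring ℂ}

theorem val_one {G : Type} [Group G] : Val R G 1 := by
  have h := val_subgroup (R := R) (⊥ : Subgroup G)
  simpa using h

/-- a pair of tuples as a tuple -/
def app (G : Type) [Group G] (k l : ℕ) : (Fin k → G) × (Fin l → G) →* (Fin (k + l) → G) where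
  toFun p := Fin.append p.1 p.2
  map_one' := by
    funext i
    refine Fin.addCases (fun i => ?_) (fun i => ?_) i
    · rw [Fin.append_left]; rfl
    · rw [Fin.append_right]; rfl
  map_mul' p q := by
    funext i
    refine Fin.addCases (fun i => ?_) (fun i => ?_) i
    · rw [Pi.mul_apply, Fin.append_left, Fin.append_left, Fin.append_left]; rfl
    · rw [Pi.mul_apply, Fin.append_right, Fin.append_right, Fin.append_right]; rfl

theorem app_inj (G : Type) [Group G] (k l : ℕ) : Function.Injective (app G k l) := by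
  rintro ⟨a, b⟩ ⟨a', b'⟩ h
  have h' : Fin.append a b = Fin.append a' b' := h
  refine Prod.ext (funext fun i => ?_) (funext fun i => ?_)
  · have := congrFun h' (Fin.castAdd l i)
    rwa [Fin.append_left, Fin.append_left] at this
  · have := congrFun h' (Fin.natAdd k i)
    rwa [Fin.append_right, Fin.append_right] at this

theorem pow_mul {G : Type} [Group G] {k l : ℕ} {v w : ℝ} (hv : Val R (Fin k → G) v)
    (hw : Val R (Fin l → G) w) : Val R (Fin (k + l) → G) (v * w) :=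
  val_incl (app G k l) (app_inj G k l) (val_mul hv hw)

theorem pow_left {G : Type} [Group G] {k : ℕ} (l : ℕ) {v : ℝ} (hv : Val R (Fin k → G) v) :
    Val R (Fin (k + l) → G) v := by
  have h := pow_mul hv (val_one (R := R) (G := Fin l → G))
  rwa [mul_one] at h

theorem pow_right {G : Type} [Group G] {k : ℕ} (l : ℕ) {v : ℝ} (hv : Val R (Fin k → G) v) :
    Val R (Fin (l + k) → G) v := by
  have h := pow_mul (val_one (R := R) (G := Fin l → G)) hv
  rwa [one_mul] at h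

theorem pow_one' {G : Type} [Group G] {v : ℝ} (hv : Val R G v) : Val R (Fin 1 → G) v :=
  val_incl (MonoidHom.mulSingle (fun _ : Fin 1 => G) 0) (by
    intro a b hab
    have := congrFun hab 0
    simpa using this) hv

theorem val_pow {G : Type} [Group G] {v : ℝ} (hv : Val R G v) (k : ℕ) :
    Val R (Fin k → G) (v ^ k) := by
  induction k with
  | zero => rw [pow_zero]; exact val_one
  | succ k ih =>
    rw [pow_succ]
    exact pow_mul ih (pow_one' hv)

/-- arithmetic: a rational number whose `k`-th power has a denominator free of `k`-th powers -/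
theorem int_of_pow (q : ℚ) (k N : ℕ) (hp : ∀ p : ℕ, p.Prime → ¬ p ^ k ∣ N) (z : ℤ)
    (h : (N : ℚ) * q ^ k = z) : q.den = 1 := by
  have hk : k ≠ 0 := by
    rintro rfl
    exact hp 2 Nat.prime_two (by simp)
  have h1 : (N : ℤ) * q.num ^ k = z * (q.den : ℤ) ^ k := by
    have hd : (q.den : ℚ) ≠ 0 := by exact_mod_cast q.den_nz
    have h2 : q * q.den = q.num := Rat.mul_den_eq_num q
    have h3 : (N : ℚ) * (q.num : ℚ) ^ k = z * (q.den : ℚ) ^ k := by
      rw [← h2, mul_pow, ← mul_assoc, h]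
    exact_mod_cast h3
  have hco : IsCoprime ((q.den : ℤ) ^ k) (q.num ^ k) := by
    apply IsCoprime.pow
    rw [Int.isCoprime_iff_gcd_eq_one]
    have := q.reduced
    rw [Int.gcd_comm]
    simpa [Int.gcd, Nat.Coprime] using this
  have h2 : (q.den : ℤ) ^ k ∣ (N : ℤ) :=
    hco.dvd_of_dvd_mul_right (Dvd.intro_left z h1.symm)
  have h3 : q.den ^ k ∣ N := by exact_mod_cast h2
  by_contra hne
  obtain ⟨p, hp1, hp2⟩ := Nat.exists_prime_and_dvd hne
  exact hp p hp1 ((pow_dvd_pow_of_dvd hp2 k).trans h3)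

/-- **Denominators free of `k`-th powers.** -/
theorem int_of_free {G : Type} [Group G] (d k N : ℕ) (hd : 0 < d) (hN : 0 < N)
    (hp : ∀ p : ℕ, p.Prime → ¬ p ^ k ∣ N)
    (h : ∀ v : ℝ, Val R (Fin k → G) v → ∃ z : ℤ, (N : ℝ) * (d ^ k * v) = z) (v : ℝ)
    (hv : Val R G v) : ∃ z : ℤ, (d : ℝ) * v = z := by
  have hk : k ≠ 0 := by
    rintro rfl
    exact hp 2 Nat.prime_two (by simp)
  obtain ⟨l, rfl⟩ := Nat.exists_eq_succ_of_ne_zero hk
  obtain ⟨z, hz⟩ := h _ (val_pow hv (l + 1))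
  have h1 : Val R (Fin (l + 1) → G) v := by
    have := pow_right l (pow_one' hv)
    exact this
  obtain ⟨y, hy⟩ := h v h1
  have hN' : (N : ℝ) ≠ 0 := by exact_mod_cast hN.ne'
  have hd' : (d : ℝ) ≠ 0 := by exact_mod_cast hd.ne'
  let q : ℚ := y / (N * d ^ l)
  have hq : (q : ℝ) = d * v := by
    simp only [q]
    push_cast
    rw [← hy]
    field_simp
    rw [Nat.succ_eq_add_one, pow_succ]
    ring
  have h2 : q.den = 1 := by
    apply int_of_pow q (l + 1) N hp z
    have h3 : (N : ℝ) * (q : ℝ) ^ (l + 1) = z := by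
      rw [hq, mul_pow, ← hz]
    exact_mod_cast h3
  refine ⟨q.num, ?_⟩
  rw [← hq]
  have := Rat.den_eq_one_iff q |>.1 h2
  exact_mod_cast this.symm

theorem val_pow_pow {G : Type} [Group G] {j : ℕ} {v : ℝ} (hv : Val R (Fin j → G) v) (k : ℕ) :
    Val R (Fin (k * j) → G) (v ^ k) := by
  induction k with
  | zero => rw [pow_zero]; exact val_one
  | succ k ih =>
    rw [pow_succ, Nat.succ_mul]
    exact pow_mul ih hv

/-- **Denominators of subexponential growth.** -/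
theorem int_of_subexp {G : Type} [Group G] (d : ℕ) (hd : 0 < d)
    (h : ∀ c : ℝ, 1 < c → ∀ K : ℕ, ∃ k N : ℕ, K ≤ k ∧ 0 < N ∧ (N : ℝ) ≤ c ^ k ∧
      ∀ v : ℝ, Val R (Fin k → G) v → ∃ z : ℤ, (N : ℝ) * (d ^ k * v) = z)
    (j : ℕ) (hj : 0 < j) (v : ℝ) (hv : Val R (Fin j → G) v) : ∃ z : ℤ, (d : ℝ) ^ j * v = z := by
  set c : ℝ := (2 : ℝ) ^ (((4 * j : ℕ) : ℝ)⁻¹) with hc
  have hc4 : c ^ (4 * j) = 2 := Real.rpow_inv_natCast_pow (by norm_num) (by omega)
  have hc1 : 1 < c := by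
    apply Real.one_lt_rpow (by norm_num)
    have : (0 : ℝ) < ((4 * j : ℕ) : ℝ) := by exact_mod_cast (by omega : 0 < 4 * j)
    positivity
  set M : ℕ := d ^ j with hM
  obtain ⟨k, N, hk, hN, hNc, hN2⟩ := h c hc1 (j * (2 * M + 2))
  obtain ⟨q, r, hr, rfl⟩ : ∃ q r, r < j ∧ k = q * j + r :=
    ⟨k / j, k % j, Nat.mod_lt _ hj, (Nat.div_add_mod' k j).symm⟩
  have hq : 2 * M + 2 ≤ q := by
    by_contra hlt
    push Not at hlt
    have h1 : (q + 1) * j ≤ (2 * M + 2) * j := Nat.mul_le_mul_right _ hlt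
    nlinarith
  -- the bound
  have hMd : M < 2 ^ M := Nat.lt_two_pow_self
  have hb : N * d ^ r < 2 ^ q := by
    have h1 : ((N * d ^ r : ℕ) : ℝ) ^ 4 < ((2 ^ q : ℕ) : ℝ) ^ 4 := by
      have h2 : (d ^ r : ℕ) ≤ 2 ^ M := by
        refine le_trans ?_ hMd.le
        exact Nat.pow_le_pow_right hd hr.le
      have h3 : ((N : ℝ)) ^ 4 ≤ (2 : ℝ) ^ (q + 1) := by
        calc (N : ℝ) ^ 4 ≤ (c ^ (q * j + r)) ^ 4 := by gcongr
          _ = c ^ (4 * (q * j + r)) := by rw [← pow_mul']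
          _ ≤ c ^ (4 * j * (q + 1)) := by
              apply pow_le_pow_right₀ hc1.le
              nlinarith
          _ = 2 ^ (q + 1) := by rw [_root_.pow_mul, hc4]
      have h4 : ((d ^ r : ℕ) : ℝ) ^ 4 ≤ (2 : ℝ) ^ (4 * M) := by
        have : ((d ^ r : ℕ) : ℝ) ≤ (2 : ℝ) ^ M := by exact_mod_cast h2
        calc ((d ^ r : ℕ) : ℝ) ^ 4 ≤ ((2 : ℝ) ^ M) ^ 4 := by gcongr
          _ = 2 ^ (4 * M) := by rw [← pow_mul']
      have h5 : ((N * d ^ r : ℕ) : ℝ) ^ 4 ≤ (2 : ℝ) ^ (q + 1 + 4 * M) := by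
        rw [Nat.cast_mul, mul_pow, pow_add]
        gcongr
      have h6 : (2 : ℝ) ^ (q + 1 + 4 * M) < (2 : ℝ) ^ (4 * q) := by
        apply pow_lt_pow_right₀ (by norm_num)
        omega
      have h7 : ((2 ^ q : ℕ) : ℝ) ^ 4 = (2 : ℝ) ^ (4 * q) := by
        push_cast
        rw [← pow_mul']
      rw [h7]
      exact lt_of_le_of_lt h5 h6
    have h2 := lt_of_pow_lt_pow_left₀ 4 (by positivity) h1
    exact_mod_cast h2
  have hp : ∀ p : ℕ, p.Prime → ¬ p ^ q ∣ N * d ^ r := by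
    intro p hp hdvd
    have h1 := Nat.le_of_dvd (Nat.mul_pos hN (Nat.pow_pos hd)) hdvd
    have h2 : 2 ^ q ≤ p ^ q := Nat.pow_le_pow_left hp.two_le q
    omega
  obtain ⟨z, hz⟩ := hN2 _ (pow_left r (val_pow_pow hv q))
  obtain ⟨l, hl⟩ : ∃ l, q * j + r = j + l := by
    refine ⟨q * j + r - j, ?_⟩
    have : 1 * j ≤ q * j := Nat.mul_le_mul_right _ (by omega)
    omega
  have h1 : Val R (Fin (q * j + r) → G) v := by
    rw [hl]
    exact pow_left l hv
  obtain ⟨y, hy⟩ := hN2 v h1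
  have hN' : (N : ℝ) ≠ 0 := by exact_mod_cast hN.ne'
  have hd' : (d : ℝ) ≠ 0 := by exact_mod_cast hd.ne'
  let x : ℚ := y / (N * d ^ l)
  have hx : (x : ℝ) = d ^ j * v := by
    simp only [x]
    push_cast
    rw [← hy, hl, pow_add]
    field_simp
  have h2 : x.den = 1 := by
    apply int_of_pow x q (N * d ^ r) hp z
    have h3 : ((N * d ^ r : ℕ) : ℝ) * (x : ℝ) ^ q = z := by
      rw [hx, mul_pow, ← hz, ← _root_.pow_mul, pow_add, Nat.mul_comm j q]
      push_cast
      ring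
    exact_mod_cast h3
  refine ⟨x.num, ?_⟩
  rw [← hx]
  have := Rat.den_eq_one_iff x |>.1 h2
  exact_mod_cast this.symm

/-- **Fractional parts.** A set of real numbers which is closed under sums and products and
contains `0`, `1` and a number which is not an integer is dense modulo `1`. -/
theorem dense_fract (E : Set ℝ) (h0 : (0 : ℝ) ∈ E) (h1 : (1 : ℝ) ∈ E)
    (ha : ∀ x ∈ E, ∀ y ∈ E, x + y ∈ E) (hm : ∀ x ∈ E, ∀ y ∈ E, x * y ∈ E)
    {v : ℝ} (hv : v ∈ E) (hv' : ¬ ∃ z : ℤ, v = z) (a b : ℝ) (hab0 : 0 ≤ a) (hab : a < b)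
    (hb : b ≤ 1) : ∃ x ∈ E, a < Int.fract x ∧ Int.fract x < b := by
  -- the subring
  let S : Subring ℝ :=
    { carrier := {x | ∃ y ∈ E, ∃ w ∈ E, x = y - w}
      zero_mem' := ⟨0, h0, 0, h0, by simp⟩
      one_mem' := ⟨1, h1, 0, h0, by simp⟩
      add_mem' := by
        rintro _ _ ⟨y, hy, w, hw, rfl⟩ ⟨y', hy', w', hw', rfl⟩
        exact ⟨y + y', ha _ hy _ hy', w + w', ha _ hw _ hw', by ring⟩
      neg_mem' := by
        rintro _ ⟨y, hy, w, hw, rfl⟩
        exact ⟨w, hw, y, hy, by ring⟩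
      mul_mem' := by
        rintro _ _ ⟨y, hy, w, hw, rfl⟩ ⟨y', hy', w', hw', rfl⟩
        exact ⟨y * y' + w * w', ha _ (hm _ hy _ hy') _ (hm _ hw _ hw'),
          y * w' + w * y', ha _ (hm _ hy _ hw') _ (hm _ hw _ hy'), by ring⟩ }
  have hES : ∀ x ∈ E, x ∈ S := fun x hx => ⟨x, hx, 0, h0, by simp⟩
  have hdense : Dense (S.toAddSubgroup : Set ℝ) := by
    rcases AddSubgroup.dense_or_cyclic S.toAddSubgroup with h | ⟨c, hc⟩
    · exact h
    · exfalso
      have hmem : ∀ x, x ∈ S ↔ ∃ n : ℤ, n • c = x := by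
        intro x
        have : x ∈ S.toAddSubgroup ↔ x ∈ AddSubgroup.closure {c} := by rw [hc]
        rw [AddSubgroup.mem_closure_singleton] at this
        exact this
      obtain ⟨n, hn⟩ := (hmem 1).1 S.one_mem
      have hcS : c ∈ S := (hmem c).2 ⟨1, by simp⟩
      obtain ⟨m, hm'⟩ := (hmem (c * c)).1 (S.mul_mem hcS hcS)
      rw [zsmul_eq_mul] at hn hm'
      have hc0 : c ≠ 0 := by
        rintro rfl
        simp at hn
      have hcm : c = m := (mul_right_cancel₀ hc0 hm').symm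
      obtain ⟨k, hk⟩ := (hmem v).1 (hES v hv)
      apply hv'
      refine ⟨k * m, ?_⟩
      rw [← hk, zsmul_eq_mul, hcm]
      push_cast
      ring
  -- a point of the subring in the middle of the interval
  set δ : ℝ := (b - a) / 3 with hδ
  have hδ0 : 0 < δ := by rw [hδ]; linarith
  obtain ⟨x, hxS, hx⟩ := hdense.exists_mem_open (isOpen_Ioo (a := a + δ) (b := b - δ))
    ⟨(a + b) / 2, by constructor <;> (rw [hδ]; linarith)⟩
  obtain ⟨y, hy, w, hw, rfl⟩ := hxS
  -- approximation of `w` by an integer multiple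
  obtain ⟨n, hn⟩ := exists_nat_gt (1 / δ)
  have hn0 : 0 < n := by
    have : (0 : ℝ) < n := lt_trans (by positivity) hn
    exact_mod_cast this
  obtain ⟨j, k, hk0, hkn, hjk⟩ := Real.exists_int_int_abs_mul_sub_le w hn0
  have hε : (1 : ℝ) / (n + 1) < δ := by
    rw [div_lt_iff₀ (by positivity)]
    rw [div_lt_iff₀ hδ0] at hn
    nlinarith
  have hsm : |(k : ℝ) * w - j| < δ := lt_of_le_of_lt hjk hε
  -- the element
  obtain ⟨l, hl⟩ : ∃ l : ℕ, k = l + 1 := ⟨(k - 1).toNat, by omega⟩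
  have hnsm : ∀ l : ℕ, (l : ℝ) * w ∈ E := by
    intro l
    induction l with
    | zero => simpa using h0
    | succ l ih =>
      have := ha _ ih _ hw
      have e : (l : ℝ) * w + w = ((l + 1 : ℕ) : ℝ) * w := by push_cast; ring
      rwa [e] at this
  refine ⟨y + l * w, ha _ hy _ (hnsm l), ?_⟩
  have he : y + l * w = (y - w) + ((k : ℝ) * w - j) + (j : ℤ) := by
    rw [hl]
    push_cast
    ring
  rw [he, Int.fract_add_intCast]
  rw [abs_lt] at hsm
  obtain ⟨hx1, hx2⟩ := hx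
  have hf : Int.fract ((y - w) + ((k : ℝ) * w - j)) = (y - w) + ((k : ℝ) * w - j) := by
    rw [Int.fract_eq_self]
    constructor <;> linarith
  rw [hf]
  constructor <;> linarith

/-- **Direct powers.** The kernel dimensions of the direct powers are integers or dense mod 1. -/
theorem dense_pow {G : Type} [Group G] {v : ℝ} (hv : Val R G v) (hv' : ¬ ∃ z : ℤ, v = z)
    (a b : ℝ) (hab0 : 0 ≤ a) (hab : a < b) (hb : b ≤ 1) :
    ∃ (k : ℕ) (x : ℝ), Val R (Fin k → G) x ∧ a < Int.fract x ∧ Int.fract x < b := by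
  obtain ⟨x, ⟨k, hx⟩, h⟩ := dense_fract {x | ∃ k : ℕ, Val R (Fin k → G) x}
    ⟨0, val_zero⟩ ⟨0, val_one⟩ (by
      rintro x ⟨k, hx⟩ y ⟨l, hy⟩
      exact ⟨k + l, val_add (pow_left l hx) (pow_right k hy)⟩) (by
      rintro x ⟨k, hx⟩ y ⟨l, hy⟩
      exact ⟨k + l, pow_mul hx hy⟩) ⟨1, pow_one' hv⟩ hv' a b hab0 hab hb
  exact ⟨k, x, hx, h⟩

/-- A group which contains its own square. -/
theorem dense_self {G : Type} [Group G] (f : G × G →* G) (hf : Function.Injective f) {v : ℝ}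
    (hv : Val R G v) (hv' : ¬ ∃ z : ℤ, v = z) (a b : ℝ) (hab0 : 0 ≤ a) (hab : a < b)
    (hb : b ≤ 1) : ∃ x : ℝ, Val R G x ∧ a < Int.fract x ∧ Int.fract x < b := by
  obtain ⟨x, hx, h⟩ := dense_fract {x | Val R G x} val_zero val_one
    (fun x hx y hy => val_add hx hy)
    (fun x hx y hy => val_incl f hf (val_mul hx hy)) hv hv' a b hab0 hab hb
  exact ⟨x, hx, h⟩

/-- **Gaps at zero.** -/
theorem int_of_gap {G : Type} [Group G] {d : ℕ} (hG : IsLcm G d)
    (h : ∀ (m : ℕ) (c : ℝ), 0 < c → c < 1 → ∃ k : ℕ, 0 < k ∧ ∀ v : ℝ,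
      Val R (Fin k → Monoid.Coprod G (FreeGroup (Fin m))) v → 0 < v → c ^ k ≤ d ^ k * v)
    (v : ℝ) (hv : Val R G v) : ∃ z : ℤ, (d : ℝ) * v = z := by
  by_contra hz
  obtain ⟨m, ρ, hρ, h0, h1⟩ := val_small hG hv hz
  have hd : (0 : ℝ) < d := by exact_mod_cast hG.pos
  have h2 : 0 < (d : ℝ) * ρ := mul_pos hd h0
  obtain ⟨k, hk, hk'⟩ := h m ((d * ρ + 1) / 2) (by linarith) (by linarith)
  have h3 := hk' _ (val_pow hρ k) (pow_pos h0 k)
  rw [← mul_pow] at h3
  have h4 : ((d : ℝ) * ρ) ^ k < ((d * ρ + 1) / 2) ^ k :=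
    pow_lt_pow_left₀ (by linarith) h2.le hk.ne'
  linarith

end Pool.Agent.R580.AT
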